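import Pool.Agent.Lib.DU.Iface
import Pool.Agent.Lib.DS.IfaceC
import Pool.Agent.Lib.DM.IfaceC

/-!
# Theorem DU (`p = 3` ramified): the interface of parts T (tower at `P`), C (theta series, hidden symmetry), V, LS, F

Author helper42. Every `S_...` is a statement which is proved by ONE part and used by others. Nothing is proved here.

`Fok f`; the smoothing ideal `m` and the ideals `b` are prime to `3 f`; the modulus of the theta series is `3 f`. `M` is a LEVEL: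
congruent to `1` modulo `3`, a multiple of `lev f m R` (with `D/3` in place of `D`). The theta series of modulus `3 f` transform
under `Γ_0(27 M)` (`D (3 f)² = 27 (D/3) f²`), the combinations `etE` (values at `r/3`) under `{3 ∣ b, 9 M ∣ c}`. `k = 1, 2`, `e = 0, 1`; `χ`
of conductor dividing `3 f`, of type `k - 1`; the units are weighted with `χ(c)`, the symbol is the one of `χ oN^e` with the sign `e`
(for `k = 1`, `e = 0` the local step fails: the root of unity `ζ`).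
`IsG`, `IsD` are those of `DM/IfaceC.lean`, `vN`, `cM` those of `DN/IfaceC.lean`.
-/

set_option autoImplicit false

open scoped Pointwise Topology nonZeroDivisors
open Filter

noncomputable section

namespace Pool.Agent.DM.DU

open Pool.Agent.MuZ Pool.Agent.FW NumberField IsDedekindDomain
open Pool.Agent.DI (io ofC io_inj exists_io io_ofC ofC_io VP MP UP TP ex)
open Pool.Agent.DN
open Pool.Agent.DT (kap cbr)

/-! ## Definitions -/

/-- The minimal level. -/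
def lev {n t : ℕ} (f : ℕ) (m : Ideal (OO n t)) (R : Finset (Ideal (OO n t))) : ℕ :=
  Dk n t / 3 * f ^ 2 * (NI m * ∏ b ∈ R, NI b) ^ 3

/-- `M` is a level for `R`. -/
structure IsLv {n t : ℕ} (f : ℕ) (m : Ideal (OO n t)) (R : Finset (Ideal (OO n t))) (M : ℕ) : Prop where
  pos : 0 < M
  one : M % 3 = 1
  dvd : lev f m R ∣ M

/-- `M` is a level for `R` and for a system of representatives modulo `3 f`. -/
structure IsLw {n t : ℕ} (f : ℕ) (m : Ideal (OO n t)) (R : Finset (Ideal (OO n t))) (M : ℕ) : Prop where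
  lv : IsLv f m R M
  ex : ∃ R2 : Finset (Ideal (OO n t)), FR f R2 ∧ IsRC (3 * f) R2 ∧ IsLv f m R2 M

/-- `pp b = (α/α') b0`, `α = α'` modulo `f`: the class of `b0` modulo `f` is the class of `pp b`. -/
structure PpR {n t : ℕ} (f : ℕ) (b b0 : Ideal (OO n t)) (α α' : OO n t) : Prop where
  fb : FB f b
  fb0 : FB f b0
  ne : α ≠ 0
  ne' : α' ≠ 0
  cop : Cop α' f
  con : (f : OO n t) ∣ α - α'
  eq : sp α' * (pp n t * b) = sp α * b0

/-- `y_b(r) = (1/3) ∑ κ(α b)^k η_(α b)(r/3)`, `α ∈ tm f`: an element of the ray class field modulo `f`. (Equal to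
`(κ(b)^k/3) E_b(r)` by `S_Kp`.) -/
def yE {n t : ℕ} (f k : ℕ) (m b : Ideal (OO n t)) (r : ℚ) : Om :=
  1 / 3 * ∑ α ∈ tm n t f, kp (sp α * b) ^ k * etaM (3 * f) m (sp α * b) (r / 3)

/-! ## Part T: the inertia group at `P` and the points of order `3^N` -/

/-- The ramification of `K`; `w4`; residues. -/
def S_T0 : Prop :=
  w4 ^ 4 = 3 ∧ ∀ (n t : ℕ) [Ram3 n t] (P : Ideal ZZ), Ab3 P →
    UP P (toO (sD n t) ^ 2 / 3) ∧ (∃ τ ∈ P.inertia Gal(Om/ℚ), τ ∉ GK n t) ∧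
    (∀ v : OO n t, VP P ((toO v - zs v) / toO (sD n t))) ∧
    ∀ ζ : Om, ζ ^ 3 = 1 → ∀ τ ∈ P.inertia Gal(Om/ℚ), (τ ∈ GK n t ↔ τ ζ = ζ) ∨ ζ = 1

/-- The group `P.inertia ∩ Gal(Om/K)` acts on the points of order `F0 3^N` (`Fok F0`) as the group of the `α = 1` modulo
`F0`, prime to `3`; its action on `w4`. -/
def S_T1 : Prop :=
  ∀ (n t : ℕ) [Ram3 n t] (P : Ideal ZZ), Ab3 P → ∀ F0 N : ℕ, Fok F0 → 1 ≤ N →
    (∀ σ ∈ P.inertia Gal(Om/ℚ), σ ∈ GK n t → ∃ α : OO n t, (F0 : OO n t) ∣ α - 1 ∧ Cop α 3 ∧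
      Psi σ (F0 * 3 ^ N) (sp α)) ∧
    (∀ α : OO n t, (F0 : OO n t) ∣ α - 1 → Cop α 3 →
      ∃ σ ∈ P.inertia Gal(Om/ℚ), σ ∈ GK n t ∧ Psi σ (F0 * 3 ^ N) (sp α)) ∧
    ∀ σ ∈ P.inertia Gal(Om/ℚ), σ ∈ GK n t → ∀ α : OO n t, (F0 : OO n t) ∣ α - 1 → Cop α 3 →
      Psi σ (F0 * 3 ^ N) (sp α) → σ w4 = zs α * w4

/-- The trace over `P.inertia ∩ Gal(Om/K)` modulo the subgroup of level `3^N` (the different has the valuation `N - 1/4`):
`3^N` divides the trace of `w4 x`. -/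
def S_T2 : Prop :=
  ∀ (n t : ℕ) [Ram3 n t] (P : Ideal ZZ), Ab3 P → ∀ (F0 N : ℕ) (A : Finset (OO n t))
    (s : OO n t → Gal(Om/ℚ)), Fok F0 → 1 ≤ N → IsG F0 N A →
    (∀ α ∈ A, s α ∈ P.inertia Gal(Om/ℚ) ∧ s α ∈ GK n t ∧ Psi (s α) (F0 * 3 ^ N) (sp α)) → ∀ y : Om,
    (∀ σ ∈ P.inertia Gal(Om/ℚ), σ ∈ GK n t → Psi σ (F0 * 3 ^ N) (⊤ : Ideal (OO n t)) → σ y = y) →
    VP P (y / w4) → TP P (3 ^ N) (∑ α ∈ A, s α y)

/-! ## Part C -/

/-- Transformation under `Γ_0(27 M)`, on the values (modulus `3 f`). -/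
def S_C1 : Prop :=
  ∀ (n t : ℕ) [Ram3 n t] (f M : ℕ) (m b : Ideal (OO n t)), FM f m → FB f b → IsLv f m {b} M →
    ∀ (a b' c d : ℤ), G0 (27 * M) a b' c d → a ≠ 0 ∧ d ≠ 0 ∧ FB f (sp (a : OO n t) * b) ∧
      ∀ r : ℚ, r.den.Coprime M → (c : ℚ) * r + d ≠ 0 ∧
      etaM (3 * f) m b ((a * r + b') / (c * r + d)) =
        (eps n t d : Om) * (rO b (sp (a : OO n t) * b) / a) *
          (etaM (3 * f) m (sp (a : OO n t) * b) r - etaM (3 * f) m (sp (a : OO n t) * b) 0) +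
        etaM (3 * f) m b (b' / d)

/-- Transformation under `Γ_1(27 M)`, on the upper half plane. -/
def S_C2 : Prop :=
  ∀ (n t : ℕ) [Ram3 n t] (f M : ℕ) (m b : Ideal (OO n t)), FM f m → FB f b → IsLv f m {b} M →
    ∀ (a b' c d : ℤ), G0 (27 * M) a b' c d → (27 * M : ℤ) ∣ d - 1 → ∀ z : ℂ, 0 < z.im →
      ThM (3 * f) m b ((a * z + b') / (c * z + d)) =
        ThM (3 * f) m b z + io (etaM (3 * f) m b (b' / d) - etaM (3 * f) m b 0)

/-- Expansions at all cusps. -/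
def S_C3 : Prop :=
  ∀ (n t : ℕ) [Ram3 n t] (f M : ℕ) (m b : Ideal (OO n t)), FM f m → FB f b → IsLv f m {b} M →
    ∀ (a b' c d : ℤ), a * d - b' * c = 1 →
    ∃ (c0 : ℂ) (cf : ℕ → ℂ) (C : ℝ), (∀ j, ‖cf j‖ ≤ C * (j + 1) ^ 3) ∧ ∀ z : ℂ, 0 < z.im →
      HasSum (fun j : ℕ => cf j * ex ((j + 1) * z / (27 * M : ℕ)))
        (ThM (3 * f) m b ((a * z + b') / (c * z + d)) - c0)

/-- The values at `c/q`, `q` prime to `N m`. -/
def S_C4 : Prop :=
  ∀ (n t : ℕ) [Ram3 n t] (f : ℕ) (m b : Ideal (OO n t)), FM f m → FB f b → ∀ (c : ℤ) (q : ℕ), 0 < q →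
    q.Coprime (NI m) →
    Tendsto (fun y : ℝ => ThM (3 * f) m b (((c / q : ℚ) : ℂ) + y * Complex.I)) (𝓝[>] 0)
      (𝓝 (hM (3 * f) m b (c / q))) ∧
    io (etaM (3 * f) m b (c / q)) = hM (3 * f) m b (c / q) ∧
    (PrI b q → etaM (3 * f) m b (c / q) = (1 / q : Om) *
      ∑ x ∈ Finset.range q, ∑ y ∈ Finset.range q,
        zet q ^ (c * (NI m * NI b * Nm (⟨1 + 3 * f * x, 3 * f * y⟩ : OO n t))) *
          gO m b (toC (⟨1 + 3 * f * x, 3 * f * y⟩ : OO n t) / (3 * f * q : ℕ)))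

/-- Class functions, period, third of the period, complex conjugation. -/
def S_C6 : Prop :=
  ∀ (n t : ℕ) [Ram3 n t] (f : ℕ) (m b : Ideal (OO n t)), FM f m → FB f b →
    (∀ b' : Ideal (OO n t), FB f b' → Ray (3 * f) b b' →
      (∀ z : ℂ, ThM (3 * f) m b z = ThM (3 * f) m b' z) ∧
      ∀ r : ℚ, etaM (3 * f) m b r = etaM (3 * f) m b' r) ∧
    (∀ z : ℂ, 0 < z.im → ThM (3 * f) m b (z + 1 / 3) = ex (NI (m * b) / 3) * ThM (3 * f) m b z) ∧
    (∀ r : ℚ, r.den.Coprime (NI m) → etaM (3 * f) m b (r + 1) = etaM (3 * f) m b r ∧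
      etaM (3 * f) m b (r + 1 / 3) = zet 3 ^ NI (m * b) * etaM (3 * f) m b r) ∧
    (∀ z : ℂ, (starRingEnd ℂ) (ThM (3 * f) m b z) =
      ThM (3 * f) (cjI m) (cjI b) (-(starRingEnd ℂ) z)) ∧
    ∀ c : Gal(Om/ℚ), (∀ x : Om, io (c x) = (starRingEnd ℂ) (io x)) → ∀ r : ℚ,
      r.den.Coprime (NI m) → c (etaM (3 * f) m b r) = etaM (3 * f) (cjI m) (cjI b) (-r)

/-- Holomorphy; the `q`-expansion; the finite sets `vN`; the exponents are congruent to `N(m b)` modulo `3`; the coefficients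
are divisible by `3` at the primes above `3`. -/
def S_C7 : Prop :=
  ∀ (n t : ℕ) [Ram3 n t] (f : ℕ) (m b : Ideal (OO n t)), FM f m → FB f b →
    DifferentiableOn ℂ (ThM (3 * f) m b) {z | 0 < z.im} ∧
    (∀ (j : ℕ) (v : ℂ), v ∈ vN (3 * f) (m * b) j ↔
      v - 1 / (3 * f : ℕ) ∈ Lam (m * b) ∧ ((3 * f : ℕ) : ℝ) ^ 2 * NI (m * b) * ‖v‖ ^ 2 = j) ∧
    (∀ j : ℕ, ¬ ((3 : ℤ) ∣ (j : ℤ) - NI (m * b)) → vN (3 * f) (m * b) j = ∅) ∧
    (∃ C : ℝ, ∀ j : ℕ, ‖cM (3 * f) m b j‖ ≤ C * (j + 1) ^ 2) ∧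
    (∀ j : ℕ, io (ofC (cM (3 * f) m b j)) = cM (3 * f) m b j ∧
      ∀ P : Ideal ZZ, Ab3 P → TP P 3 (ofC (cM (3 * f) m b j))) ∧
    ∀ z : ℂ, 0 < z.im → HasSum (fun j : ℕ => cM (3 * f) m b j / fr b * ex (j * z)) (ThM (3 * f) m b z)

/-- The Galois action on the values. -/
def S_C8 : Prop :=
  ∀ (n t : ℕ) [Ram3 n t] (f : ℕ) (m b : Ideal (OO n t)), FM f m → FB f b → ∀ r : ℚ,
    r.den.Coprime (NI m) → ∀ τ ∈ GK n t, ∀ a : Ideal (OO n t), Psi τ (3 * f) a →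
      τ (etaM (3 * f) m b r) = etaM (3 * f) m (a * b) r

/-- `ζ = e(-s N/3)`, a cube root of unity (primitive for `N` prime to `3`, `s = ± 1`). -/
def zU (s : ℤ) (N : ℕ) : Om := zet 3 ^ (-(s * N))

/-- **The hidden symmetry**: the actions of `(1 0; ± 3 M 1)` (trivial), of `(1 0; ± M 1)` for `k = 1` (a cube root of unity), and
for `k = 2` (exact; checked numerically for `D = 3`, `f = 4, 5`; `k = 1`: `D = 3, 15, 24`). -/
def S_C9 : Prop :=
  ∀ (n t : ℕ) [Ram3 n t] (f M : ℕ) (m b : Ideal (OO n t)), FM f m → FB f b → IsLv f m {b} M →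
    ∀ s : ℤ, (s = 1 ∨ s = -1) → (∀ r : ℚ, r.den.Coprime M →
      (s * M : ℚ) * r + 1 ≠ 0 ∧ (s * (3 * M) : ℚ) * r + 1 ≠ 0 ∧
      ∀ k : ℕ, (k = 1 ∨ k = 2) → etE f k m b (r / (s * (3 * M) * r + 1)) = etE f k m b r) ∧
    (∀ r : ℚ, r.den.Coprime M →
      etE f 1 m b (r / (s * M * r + 1)) - etE f 1 m b 0 =
        zU s (NI (m * b)) * (etE f 1 m b r - etE f 1 m b 0)) ∧
    ∀ (b0 : Ideal (OO n t)) (α α' : OO n t), PpR f b b0 α α' → IsLv f m {b0} M →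
      ∀ r : ℚ, r.den.Coprime M →
      etE f 2 m b (r / (s * M * r + 1)) - etE f 2 m b 0 =
        zU s (NI (m * b)) * (etE f 2 m b r - etE f 2 m b 0) +
        toO α / (3 * toO α') * rO b b0 * ((1 - zU s (NI (m * b))) / (1 - zU s (NI (m * b0)))) *
          (3 * (etE f 2 m b0 ((r / 3) / (s * M * (r / 3) + 1)) - etE f 2 m b0 0) -
            (2 + zU s (NI (m * b0))) * (etE f 2 m b0 (r / 3) - etE f 2 m b0 0))

/-- Integrality at the primes above `3`: `(w4^k/3) E_b(r)` is integral and fixed by `P.inertia ∩ Gal(Om/K)`; `yE`. -/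
def S_C10 : Prop :=
  ∀ (n t : ℕ) [Ram3 n t] (f M : ℕ) (m b : Ideal (OO n t)), FM f m → FB f b → IsLv f m {b} M →
    ∀ (k : ℕ), (k = 1 ∨ k = 2) → ∀ r : ℚ, r.den.Coprime M →
      yE f k m b r = kp b ^ k / 3 * etE f k m b r ∧
      ∀ P : Ideal ZZ, Ab3 P → VP P (w4 ^ k / 3 * etE f k m b r) ∧ VP P (yE f k m b r) ∧
      (∀ σ ∈ P.inertia Gal(Om/ℚ), σ ∈ GK n t → σ (w4 ^ k / 3 * etE f k m b r) = w4 ^ k / 3 * etE f k m b r)

/-! ## Part V -/

/-- Levels exist. -/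
def S_Lw : Prop :=
  ∀ (n t : ℕ) [Ram3 n t] (f : ℕ) (m : Ideal (OO n t)) (R : Finset (Ideal (OO n t))), FM f m → FR f R →
    ∃ M : ℕ, IsLw f m R M

/-- **Part V.** The functions `xs` are integral. If `xs` (for `k = 2`: also the function of the pair `χ oN`, `1 - e`) is constant
modulo `P` on `ℤ[1/3]` then `xs` is constant on the `Γ_1(M)`-orbit of `0`. (`k = 2`: `x(U r) = x(r) + λ x'(r/3) + const`, `x'` the
function of the pair `χ oN`, `1 - e`: `1 - ζ_b` has the sign `oN(b)`.) -/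
def S_V : Prop :=
  ∀ (n t : ℕ) [Ram3 n t] (f M k e : ℕ) (m : Ideal (OO n t)) (R : Finset (Ideal (OO n t))), FM f m → FR f R →
    IsRC f R → IsLw f m R M → ∀ χ : Ideal (OO n t) → Om, IsChi (3 * f) χ → ∀ P : Ideal ZZ, Ab3 P →
    (k = 1 ∨ k = 2) → (e = 0 ∨ e = 1) → Ty P f χ (k - 1) →
    (∀ r : ℚ, r.den.Coprime M → VP P (xs f k e m R χ r)) ∧
    ((∀ (c : ℤ) (j : ℕ), MP P (xs f k e m R χ (c / 3 ^ j) - xs f k e m R χ 0)) →
      (k = 2 → ∀ (c : ℤ) (j : ℕ),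
        MP P (xs f k (1 - e) m R (tw 1 χ) (c / 3 ^ j) - xs f k (1 - e) m R (tw 1 χ) 0)) →
      ∀ a b c d : ℤ, G0 M a b c d → (M : ℤ) ∣ d - 1 → MP P (xs f k e m R χ (b / d) - xs f k e m R χ 0))

/-! ## The local step, F -/

/-- **The local step (LS).** If for infinitely many `N` the sum `∑ χ(c) κ(u_N(c), d)` vanishes modulo `P` for all `d`
in the decomposition group, then the symbol of `χ oN^e` of sign `e` is constant modulo `P` on `ℤ[1/3]`, for `(k, e) = (1, 1), (2, 0),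
(2, 1)`. (`tw 0 χ` is the function `χ oN^0 = χ`.) -/
def S_LS : Prop :=
  ∀ (n t : ℕ) [Ram3 n t] (f k e : ℕ) (m : Ideal (OO n t)) (R : Finset (Ideal (OO n t)))
    (χ : Ideal (OO n t) → Om) (P : Ideal ZZ), FM f m → FR f R → IsRC f R → IsChi (3 * f) χ → Ab3 P →
    (k = 1 ∨ k = 2) → (e = 0 ∨ e = 1) → (k = 1 → e = 1) → Ty P f χ (k - 1) →
    (∀ N0 : ℕ, ∃ N : ℕ, N0 ≤ N ∧ ∃ T : Finset (OO n t), IsRep f N T ∧ ∃ D : Finset (Ideal (OO n t)),
      IsDS f N D ∧ ∀ d : Gal(Om/ℚ), IsD n t f P d →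
        MP P (∑ c ∈ D, χ c * ((kap (uN f N m T c) d).val : Om))) →
    ∀ (c : ℤ) (j : ℕ), MP P (xs f k e m R (tw e χ) (c / 3 ^ j) - xs f k e m R (tw e χ) 0)

/-- **Proposition F.** For every character `χ` of type `k - 1`, `k = 1, 2`, which is not invariant under complex
conjugation, every sign `e` and every smoothing ideal `m ≠ 1`: the symbol is not constant modulo `P` on the
`Γ_1(M)`-orbit of `0`. (Used for `e = 1` and `tw 1 χ`.) -/
def S_F : Prop :=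
  ∀ (n t : ℕ) [Ram3 n t] (f M k e : ℕ) (m : Ideal (OO n t)) (R : Finset (Ideal (OO n t))), FM f m → FR f R →
    IsRC f R → IsLw f m R M → m ≠ ⊤ → ∀ χ : Ideal (OO n t) → Om, IsChi (3 * f) χ → Ncj χ →
    ∀ P : Ideal ZZ, Ab3 P → (k = 1 ∨ k = 2) → (e = 0 ∨ e = 1) → Ty P f χ (k - 1) →
    ∃ a b c d : ℤ, G0 M a b c d ∧ (M : ℤ) ∣ d - 1 ∧
      ¬ MP P (xs f k e m R χ (b / d) - xs f k e m R χ 0)

end Pool.Agent.DM.DU
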