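import Pool.Agent.Lib.DU.PI.AllZ
import Pool.Agent.Lib.DU.E.AllZ
import Pool.Agent.Lib.DU.GL.All
import Pool.Agent.Lib.DU.LS.All
import Pool.Agent.Lib.DU.C.All
import Pool.Agent.Lib.DU.CV.All
import Pool.Agent.Lib.DU.CV.V4
import Pool.Agent.Lib.DU.F.AllZ
import Pool.Agent.Lib.DU.G.SG

/-!
# THEOREM DU (`p = 3` ramified), without hypotheses (assembly: helper55)
-/

set_option autoImplicit false

noncomputable section

namespace Pool.Agent.DM.DU

open Pool.Agent.DN

theorem zV : S_V :=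
  sV GL.zT0 (aC1 DS.zR1) (aC6 DS.zR1) (aC9 DS.zR1) zC10 DM.aB7 DM.zR1 zD2

theorem zG : S_G := aSG zO4 LS.zLS zV zF sLw

/-- **THEOREM DU.** `3` ramified in `K`: `μ = 0` at `p = 3` for all number fields in `Wf n t`. -/
theorem thmDU : ThmDU := PI.tDU_of zG

end Pool.Agent.DM.DU
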