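import Pool.Agent.Lib.DM.Defs

/-!
# Theorem DU (`p = 3`, `3` ramified in `K`): definitions (author helper42)

Namespace `Pool.Agent.DM.DU`: all names of `DM/Defs.lean` (second framing by the point `1/4`: `fr`, `XC`, `WC`, `xO`, `vO`, `cO`, `rO`, `gO`,
`ThM`, `etaM`; `IsChi`, `oN`, `Ty`, `tmv`, `tm`; `HN`, `HP`, `HPN`, `Lf`, `Ln`, `Mf`, `Mn`; `Theta`, `IsRep`, `uN`; `Fok`, `FM`, `FB`, `G30`,
`Ab3`, `IK`) and of `DN/Defs.lean` are used as they are. `f` is divisible by `20` and prime to `3`.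

`3 = pp²` up to a unit at `3`; `sD = √-D` has the valuation `1/2` (`v(3) = 1`); the residue field is `F_3`: `zs v = ± 1` is the class
of `v` modulo `pp`. The points of exact order `pp^(j+1)` have the valuation `1/(4 3^j)`. Types `j = k - 1`, `k = 1, 2`.
-/

set_option autoImplicit false

open scoped Pointwise Topology
open Filter

noncomputable section

namespace Pool.Agent.DM.DU

open Pool.Agent.MuZ Pool.Agent.FW NumberField
open Pool.Agent.DI (io ofC io_inj exists_io io_ofC ofC_io VP MP UP TP ex)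
open Pool.Agent.DN
open Pool.Agent.DT (kap cbr)

/-- `3` is ramified. -/
class Ram3 (n t : ℕ) : Prop extends Nsp n t where
  zero : Dk n t % 3 = 0

variable {n t : ℕ}

/-- The prime ideal above `3`. -/
def pp (n t : ℕ) : Ideal (OO n t) := Ideal.span {3, sD n t}

/-- The class of `v` modulo `pp`: `1`, `-1` or `0` (`v = re + im w`, `w = t/2 = -t` modulo `pp`). -/
def zs (v : OO n t) : ℤ :=
  if (3 : ℤ) ∣ v.re - t * v.im - 1 then 1 else if (3 : ℤ) ∣ v.re - t * v.im + 1 then -1 else 0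

/-- A fourth root of `3`. -/
def w4 : Om := by
  classical
  exact if h : ∃ y : Om, y ^ 4 = 3 then h.choose else 0

/-- The point `√-D/3` of exact order `pp`, on all the curves `ℂ / Lam b`, `b` prime to `3`. -/
def T3 (n t : ℕ) : ℂ := toC (sD n t) / 3

/-- `κ(b) = 1/(√-D W(√-D/3))`, of valuation `1/4`. -/
def kp (b : Ideal (OO n t)) : Om := 1 / (toO (sD n t) * vO b (T3 n t))

/-- `E_b(r) = ∑ zs(α)^k η_(α b)(r/3)`, the sum over `α ∈ tm f`, `η` of modulus `3 f`; `k ∈ {1, 2}`. -/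
def etE (f k : ℕ) (m b : Ideal (OO n t)) (r : ℚ) : Om :=
  ∑ α ∈ tm n t f, (zs α : Om) ^ k * etaM (3 * f) m (sp α * b) (r / 3)

/-- `w(r) = (w4^k/3) ∑ χ(b) (fr(b)/fr(1)) E_b(r)`, the sum over `R`, a system of representatives of the ray class group
modulo `f`, of ideals prime to `3 f`; `χ` of conductor dividing `3 f` and of type `k - 1`. -/
def xw (f k : ℕ) (m : Ideal (OO n t)) (R : Finset (Ideal (OO n t))) (χ : Ideal (OO n t) → Om) (r : ℚ) : Om :=
  w4 ^ k / 3 * ∑ b ∈ R, χ b * rO ⊤ b * etE f k m b r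

/-- `x(r) = w(r) + (-1)^e w(-r)`. -/
def xs (f k e : ℕ) (m : Ideal (OO n t)) (R : Finset (Ideal (OO n t))) (χ : Ideal (OO n t) → Om) (r : ℚ) : Om :=
  xw f k m R χ r + (-1) ^ e * xw f k m R χ (-r)

/-- The character `χ oN^e`. -/
def tw (e : ℕ) (χ : Ideal (OO n t) → Om) (b : Ideal (OO n t)) : Om := χ b * oN b ^ e

/-- `χ` is not invariant under complex conjugation. -/
def Ncj (χ : Ideal (OO n t) → Om) : Prop := ∃ b : Ideal (OO n t), χ (cjI b) ≠ χ b

/-- **Theorem DU.** -/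
def ThmDU : Prop :=
  ∀ (n t : ℕ) [Ram3 n t] (F : IntermediateField ℚ Om), FiniteDimensional ℚ F → F ≤ Wf n t →
    XFinGen 3 (cyc 3 F)

end Pool.Agent.DM.DU
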