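import Pool.Agent.Lib.DU.Defs
import Pool.Agent.Lib.DM.IfaceG
import Pool.Agent.Lib.DR.Defs

/-!
# Theorem DU (`p = 3` ramified): the interface of parts O, R, D, E, G, I (author helper42)

Every `S_...` is a statement which is proved by ONE part and used by others. Nothing is proved here. Everything which
is stated for `[SqN n t]` or `[Nsp n t]` in `DS/*`, `DM/Iface.lean`, `DM/IfaceE.lean`, `DM/IfaceG.lean` is used as it is (`DM.S_R1`,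
`DM.S_XOm`, `DM.S_D1`, `DM.S_D5` - `S_D8`, `DM.S_E9`, `S_E10`, `S_Cj`, `S_E4n`, `S_E4b`, `DM.S_GR`, `S_GM`, `S_G3`, `S_H`). Here: only the statements
at the primes above `3`. (Namespace `Pool.Agent.DM.DU`: write `DM.S_D2` for the ones of `DM`.)
-/

set_option autoImplicit false

open scoped Pointwise Topology nonZeroDivisors
open Filter

noncomputable section

namespace Pool.Agent.DM.DU

open Pool.Agent.MuZ Pool.Agent.FW NumberField IsDedekindDomain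
open Pool.Agent.DI (io ofC io_inj exists_io io_ofC ofC_io VP MP UP TP ex)
open Pool.Agent.DN
open Pool.Agent.DT (kap cbr)

/-! ## Part O: the prime above `3` -/

/-- The prime ideal `pp` above `3`, the residues. -/
def S_O4 : Prop :=
  ∀ (n t : ℕ) [Ram3 n t], (pp n t).IsPrime ∧ NI (pp n t) = 3 ∧ pp n t * pp n t = sp (3 : OO n t) ∧
    cjI (pp n t) = pp n t ∧ sD n t * sD n t = -(Dk n t : OO n t) ∧ cjO (sD n t) = -sD n t ∧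
    (∃ c : Ideal (OO n t), c ≠ ⊥ ∧ PrI c 3 ∧ sp (sD n t) = pp n t * c) ∧
    (∃ D' : ℕ, Dk n t = 3 * D' ∧ D'.Coprime 3) ∧
    (∀ v : OO n t, Cop v 3 ↔ v ∉ pp n t) ∧ (∀ v : OO n t, Cop v 3 ↔ ¬ (3 : ℤ) ∣ Nm v) ∧
    (∀ v : OO n t, Cop v 3 → (3 : ℤ) ∣ Nm v - 1) ∧
    (∀ v : OO n t, v - (zs v : OO n t) ∈ pp n t) ∧ (∀ v : OO n t, zs v = 0 ↔ v ∈ pp n t) ∧
    (∀ v : OO n t, zs v = 1 ∨ zs v = -1 ∨ zs v = 0) ∧
    (∀ v u : OO n t, zs (v * u) = zs v * zs u) ∧ (∀ v u : OO n t, v - u ∈ pp n t → zs v = zs u) ∧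
    (∀ v : OO n t, zs (cjO v) = zs v) ∧
    (∀ v : OO n t, (3 : OO n t) ∣ v ↔ (3 : ℤ) ∣ v.re ∧ (3 : ℤ) ∣ v.im) ∧
    ∀ a : Ideal (OO n t), a ≠ ⊥ → ∃ (j : ℕ) (a' : Ideal (OO n t)), a' ≠ ⊥ ∧ PrI a' 3 ∧ a = pp n t ^ j * a'

/-- The point `T3 = √-D/3` of order `pp`. -/
def S_L6 : Prop :=
  ∀ (n t : ℕ) [Ram3 n t] (b : Ideal (OO n t)), b ≠ ⊥ → PrI b 3 →
    T3 n t ∈ Lam (pp n t * b) ∧ T3 n t ∉ Lam b ∧ 2 * T3 n t ∉ Lam b ∧
    (∀ T ∈ Lam (pp n t * b), T ∈ Lam b ∨ T - T3 n t ∈ Lam b ∨ T + T3 n t ∈ Lam b) ∧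
    (∀ v : OO n t, toC v * T3 n t - (zs v : ℂ) * T3 n t ∈ Lam b) ∧
    ∀ (j : ℕ) (T : ℂ), T ∈ Lam (pp n t ^ (2 * j) * b) ↔ (3 : ℂ) ^ j * T ∈ Lam b

/-! ## Part R, D -/

/-- `b₂ = 1 - 8 c` has the valuation `1/2` at the primes above `3`; `c = -1`. -/
def S_R2 : Prop :=
  ∀ (n t : ℕ) [Ram3 n t] (P : Ideal ZZ), Ab3 P → ∀ b : Ideal (OO n t), G30 b →
    UP P (cO b) ∧ MP P (cO b + 1) ∧ UP P ((1 - 8 * cO b) ^ 2 / 3)

/-- The primes above `3`: supersingular reduction, units. -/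
def S_D2 : Prop :=
  ∀ (n t : ℕ) [Ram3 n t] (P : Ideal ZZ), Ab3 P → ∀ b : Ideal (OO n t), G30 b →
    (∀ (z : ℂ) (j : ℕ), (3 : ℂ) ^ j * z ∈ Lam b → IK P b z) ∧
    (∀ z : ℂ, Tor n t z → (IK P b (3 * z) ↔ IK P b z)) ∧
    (∀ z : ℂ, Tor n t z → ¬ IK P b z → VP P (xO b z) ∧ VP P (vO b z)) ∧
    (∀ z : ℂ, Tor n t z → ¬ IK P b (2 * z) → UP P (vO b z)) ∧
    (∀ z : ℂ, Tor n t z → ¬ Qp P b z → ¬ IK P b z) ∧
    (∀ z z' : ℂ, Tor n t z → Tor n t z' → ¬ IK P b z → ¬ IK P b z' → ¬ Qp P b (z + z') →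
      ¬ Qp P b (z - z') → UP P (xO b z - xO b z')) ∧
    ∀ a : Ideal (OO n t), a ≠ ⊥ → PrI a 30 → UP P (rO b (a * b))

/-- `g` at the primes above `3`. -/
def S_D9 : Prop :=
  ∀ (n t : ℕ) [Ram3 n t] (P : Ideal ZZ), Ab3 P → ∀ m b : Ideal (OO n t), m ≠ ⊥ → G30 b →
    PrI m 30 → ∀ z : ℂ, Tor n t z → (∀ u ∈ Lam (m * b), ¬ Qp P b (z + u)) →
      VP P (gO m b z) ∧ gO m b z = ∑ u ∈ hs m b, vO b z * (xO b z - xO b u)⁻¹

/-- The valuations at the points `d` of exact order `pp ^ (j + 1)`: `X(z + d) - X(z)` has the valuation `1/(4 3^j)` if `2 z` is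
not in the kernel. At the point `T3` of order `pp`: `X` has the valuation `-1/2`, `W` has the valuation `-3/4`. -/
def S_D10 : Prop :=
  ∀ (n t : ℕ) [Ram3 n t] (P : Ideal ZZ), Ab3 P → ∀ b : Ideal (OO n t), G30 b →
    (∀ (j : ℕ) (z d : ℂ), Tor n t z → ¬ IK P b (2 * z) → d ∈ Lam (pp n t ^ (j + 1) * b) →
      d ∉ Lam (pp n t ^ j * b) → UP P ((xO b (z + d) - xO b z) ^ (4 * 3 ^ j) / 3)) ∧
    UP P (3 * xO b (T3 n t) ^ 2) ∧ UP P (27 * vO b (T3 n t) ^ 4)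

/-- The numbers `κ(b)`: valuation `1/4`; isogenies; exact homogeneity. -/
def S_Kp : Prop :=
  (∀ (n t : ℕ) [Ram3 n t] (b : Ideal (OO n t)), G30 b → ∀ α : OO n t, (4 : OO n t) ∣ α - 1 → Cop α 30 →
    kp b ≠ 0 ∧ kp (sp α * b) = zs α * kp b) ∧
  ∀ (n t : ℕ) [Ram3 n t] (P : Ideal ZZ), Ab3 P → ∀ b : Ideal (OO n t), G30 b →
    UP P (kp b / w4) ∧
    ∀ a : Ideal (OO n t), a ≠ ⊥ → PrI a 30 → MP P (kp (a * b) / kp b - rO b (a * b) ^ 3)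

/-! ## Part E -/

/-- The inertia elements in `Gal(Om/K)` at the primes above `3` act trivially on the torsion prime to `3`; tame part. -/
def S_E4a : Prop :=
  ∀ (n t : ℕ) [Ram3 n t] (P : Ideal ZZ), Ab3 P → ∀ τ ∈ P.inertia Gal(Om/ℚ), τ ∈ GK n t →
    (∀ (N N' : ℕ) (a : Ideal (OO n t)), 0 < N → 15 ∣ N → N' ∣ N → N'.Coprime 3 → Psi τ N a →
      Ray N' a ⊤) ∧
    ∀ f : ℕ, 0 < f → 5 ∣ f → f.Coprime 3 → ∀ x ∈ Mf n t f, (τ ^ 2) x = x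

/-- The elements `τ` outside of `Gal(Om/K)` (`DR.PsiC`: `τ` acts as complex conjugation followed by the ideal `a`): the second
framing; `r = rO ⊤ a`; for an inertia element `τ`: `r² = -1`, `τ(w4)/w4 = -r` modulo `P`. -/
def S_E11 : Prop :=
  (∀ (n t : ℕ) [SqN n t] (N : ℕ), 0 < N → 60 ∣ N →
    (∀ τ : Gal(Om/ℚ), τ ∉ GK n t → (∃ a : Ideal (OO n t), DR.PsiC τ N a) ∧
      ∀ v : OO n t, τ (toO v) = toO (cjO v)) ∧
    (∀ (τ : Gal(Om/ℚ)) (a : Ideal (OO n t)), DR.PsiC τ N a → G30 a ∧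
      (∀ ζ : Om, ζ ^ N = 1 → τ ζ * ζ ^ NI a = 1) ∧
      (∀ b : Ideal (OO n t), G30 b → τ (cO b) = cO (a * cjI b) ∧
        (∀ z : ℂ, (N : ℂ) * z ∈ Lam b → τ (xO b z) = xO (a * cjI b) ((starRingEnd ℂ) z) ∧
          τ (vO b z) = vO (a * cjI b) ((starRingEnd ℂ) z)) ∧
        ∀ c : Ideal (OO n t), G30 c → τ (rO b c) = rO (a * cjI b) (a * cjI c)) ∧
      (∀ (σ : Gal(Om/ℚ)) (a' : Ideal (OO n t)), Psi σ N a' → DR.PsiC (σ * τ) N (a' * a) ∧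
        DR.PsiC (τ * σ) N (a * cjI a')) ∧
      ∀ m b : Ideal (OO n t), m ≠ ⊥ → G30 b → PrI m 30 → NI m ∣ N → ∀ z : ℂ, (N : ℂ) * z ∈ Lam b →
        (z ∉ Lam (m * b) → τ (gO m b z) = gO (cjI m) (a * cjI b) ((starRingEnd ℂ) z)) ∧
        τ (Theta m b z) = Theta (cjI m) (a * cjI b) ((starRingEnd ℂ) z))) ∧
  ∀ (n t : ℕ) [Ram3 n t] (P : Ideal ZZ), Ab3 P → ∀ τ ∈ P.inertia Gal(Om/ℚ), ∀ (N : ℕ)
    (a : Ideal (OO n t)), 0 < N → 60 ∣ N → DR.PsiC τ N a →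
      MP P (rO ⊤ a ^ 2 + 1) ∧ MP P (τ w4 / w4 + rO ⊤ a) ∧ VP P ((τ w4 / w4 + rO ⊤ a) / toO (sD n t))

/-! ## Part G and Part I -/

/-- **Output of Part G** (ramified case). For all large `N`, for the characters which are not invariant under
conjugation (for the others: the field is abelian over `ℚ`). -/
def S_G : Prop :=
  ∀ (n t : ℕ) [Ram3 n t] (f : ℕ) (m : Ideal (OO n t)) (χ : Ideal (OO n t) → Om) (P : Ideal ZZ),
    FM f m → m ≠ ⊤ → IsChi (3 * f) χ → Ncj χ → Ab3 P →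
    ∃ N0 : ℕ, 2 ≤ N0 ∧ ∀ N : ℕ, N0 ≤ N → ∀ T : Finset (OO n t), IsRep f N T →
      ∀ D : Finset (Ideal (OO n t)), IsDS f N D →
        ∃ d : Gal(Om/ℚ), (∀ x : ZZ, x ∈ P → d • x ∈ P) ∧
          (∀ N' : ℕ, 1 ≤ N' → ∀ x ∈ Mn n t f N', d x = x) ∧
          ¬ MP P (∑ c ∈ D, χ c * ((kap (uN f N m T c) d).val : Om))

/-- The result for the fields `L` (ramified case). -/
def S_I : Prop := ∀ (n t : ℕ) [Ram3 n t] (f : ℕ), Fok f → XFinGen 3 (cyc 3 (Lf n t f))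

end Pool.Agent.DM.DU
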