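import Pool.Agent.Lib.DU.IfaceC
import Pool.Agent.Lib.DM.IfaceF
import Pool.Agent.Lib.DU.F4.FH

/-!
# Theorem DU (`p = 3` ramified): the interface of part F (non-constancy), author helper79

The output is `S_F` of `DU/IfaceC.lean`. `S_Kf`, `S_Lead`, `S_F2`, `S_Psi`, `S_FH`: the division of part F. `AF`, `aF`, `CF`, `cF`,
`uF`, `Kf`, `IsSig`, `a4O`, `a6O` are those of `DM/IfaceF.lean`. Nothing is proved here.

IDEA. `s = - (-1)^e`. `A = N0 ∑ σ_b(β) ThM (3f) m b` (sum over the classes modulo `3 f`), `β = κ^k β₀/3`, `β₀` in the ray class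
field modulo `f`. If `xs` is constant modulo `P` on the orbit and `χ` is not invariant under conjugation then for a suitable
`β₀` the periods `α(g)` are in `O`, `α(g) - s α(g')` is in `pp`, and the leading coefficient of `fr C`,
`C(z) = A(z) - s conj A(- conj z)`, has exactly the valuation `k/4` at some prime `Q` above `3`. `G(v)³ = y(3 v)`, `y` the
tangent at `T3`, `G` is invariant under `v → v + T3`: `Ψ = G(C/3)` is a modular function, a quotient of bounded series;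
contradiction at `Q` (`DU.F4.fh`). The curve is `y² = x³ + a4 x + a6` (`x = ℘/fr²`), or `y² = X³ + g X² + c² X`, `4 g = 1 - 8 c`.
-/

set_option autoImplicit false

open scoped Pointwise Topology MatrixGroups
open Filter

noncomputable section

namespace Pool.Agent.DM.DU

open Pool.Agent.MuZ Pool.Agent.FW NumberField
open Pool.Agent.DI (io ofC io_inj exists_io io_ofC ofC_io VP MP UP TP ex)
open Pool.Agent.DN

/-! ## The tangent at `T3` -/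

/-- `℘(T3)/fr²`. -/
def xtT (n t : ℕ) : Om :=
  xO (⊤ : Ideal (OO n t)) (T3 n t) + (1 - 8 * cO (⊤ : Ideal (OO n t))) / 12

/-- `℘'(T3)/(2 fr³)`. -/
def ytT (n t : ℕ) : Om := vO (⊤ : Ideal (OO n t)) (T3 n t) / 2

/-- The slope of the tangent at `T3`. -/
def lamT (n t : ℕ) : Om := (3 * xtT n t ^ 2 + a4O n t) / (2 * ytT n t)

/-- The tangent at `T3` is `y = lam x + nu`. -/
def nuT (n t : ℕ) : Om := ytT n t - lamT n t * xtT n t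

/-! ## The ray class fields modulo `f` and modulo `3 f` -/

/-- Galois theory of `Kf n t f f`, `Kf n t f (3 * f)`; the first one is unramified over `K` above `3`. -/
def S_Kf : Prop :=
  ∀ (n t : ℕ) [Ram3 n t] (f : ℕ), Fok f →
    (∀ N : ℕ, (N = f ∨ N = 3 * f) → FiniteDimensional ℚ (Kf n t f N) ∧ wO n t ∈ Kf n t f N ∧
      (∀ τ ∈ GK n t, ∀ x ∈ Kf n t f N, τ x ∈ Kf n t f N) ∧
      ∀ τ ∈ GK n t, ∀ τ' ∈ GK n t, ∀ a a' : Ideal (OO n t), Psi τ (3 * f) a →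
        Psi τ' (3 * f) a' → ((∀ x ∈ Kf n t f N, τ x = τ' x) ↔ Ray N a a')) ∧
    Kf n t f f ≤ Kf n t f (3 * f) ∧ (∃ σ, IsSig n t f σ) ∧
    (∀ x : Om, (∀ τ ∈ GK n t, τ x = x) → x ∈ KQ n t) ∧
    (∀ P : Ideal ZZ, Ab3 P → ∀ τ ∈ GK n t, τ ∈ P.inertia Gal(Om/ℚ) → ∀ x ∈ Kf n t f f, τ x = x) ∧
    (∀ P : Ideal ZZ, Ab3 P → ∀ τ ∈ GK n t, ∀ τ' ∈ GK n t,
      (∀ x ∈ Kf n t f f, IsIntegral ℤ x → MP P (τ x - τ' x)) → ∀ x ∈ Kf n t f f, τ x = τ' x) ∧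
    (∃ c : Gal(Om/ℚ), IsCj c) ∧ (∀ c : Gal(Om/ℚ), IsCj c → c * c = 1 ∧ c (wO n t) = t - wO n t) ∧
    ∀ P : Ideal ZZ, Ab3 P → ∃ τ ∈ P.inertia Gal(Om/ℚ), τ ∉ GK n t

/-! ## The division -/

/-- The periods of `A` are in `O`, with `α(g) - s α(g')` in `pp`, `g' = (a -b; -c d)`. -/
def IsPer {n t : ℕ} (f M : ℕ) (s : ℤ) (m : Ideal (OO n t)) (R : Finset (Ideal (OO n t)))
    (σ : Ideal (OO n t) → Gal(Om/ℚ)) (N0 : ℕ) (β : Om) : Prop :=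
  ∀ a b c d : ℤ, G0 (27 * M) a b c d → (27 * M : ℤ) ∣ d - 1 → ∃ α α' : OO n t,
    α - s * α' ∈ pp n t ∧ ∀ z : ℂ, 0 < z.im →
      AF f m R σ N0 β ((a * z + b) / (c * z + d)) = AF f m R σ N0 β z + toC α ∧
      AF f m R σ N0 β ((a * z - b) / (-c * z + d)) = AF f m R σ N0 β z + toC α'

/-- The coefficients of `A`: `a_0 = 0`, divisibility, `a_1`. -/
def S_Lead : Prop :=
  ∀ (n t : ℕ) [Ram3 n t] (f : ℕ) (m : Ideal (OO n t)) (R : Finset (Ideal (OO n t))), FM f m → FR f R →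
    IsRC (3 * f) R → ∀ σ : Ideal (OO n t) → Gal(Om/ℚ), IsSig n t f σ → ∀ (N0 : ℕ) (β : Om),
      β ∈ Kf n t f (3 * f) →
      (∀ j : ℕ, aF f m R σ N0 β j ∈ Kf n t f (3 * f)) ∧ aF f m R σ N0 β 0 = 0 ∧
      (∀ z : ℂ, 0 < z.im → HasSum (fun j : ℕ => io (aF f m R σ N0 β j) * ex z ^ j)
        (fr (⊤ : Ideal (OO n t)) * AF f m R σ N0 β z)) ∧
      (∀ Q : Ideal ZZ, Ab3 Q → ∀ γ : Om, γ ≠ 0 → (∀ b ∈ R, VP Q (3 * σ b β / γ)) →
        ∀ j : ℕ, VP Q (aF f m R σ N0 β j / γ)) ∧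
      (m ≠ ⊤ → ¬ 3 ∣ N0 → ∃ b1 ∈ R, Ray (3 * f) (m * b1) ⊤ ∧ ∃ u : Om,
        aF f m R σ N0 β 1 = u * (3 * σ b1 β * rO b1 ⊤) ∧
        ∀ Q : Ideal ZZ, Ab3 Q → UP Q u ∧ ∀ c : Gal(Om/ℚ), IsCj c → MP Q (c u - u))

/-- **F1, F2.** If `xs` is constant modulo `P`: there is `β` such that `A = AF f m R2 σ N0 β` has periods in `O`, with
`α(g) - s α(g')` in `pp`, and the leading coefficient of `fr C` has the valuation `k/4` at some prime above `3`. -/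
def S_F2 : Prop :=
  ∀ (n t : ℕ) [Ram3 n t] (f M k e : ℕ) (m : Ideal (OO n t)) (R R2 : Finset (Ideal (OO n t))), FM f m →
    m ≠ ⊤ → FR f R → IsRC f R → IsLv f m R M → FR f R2 → IsRC (3 * f) R2 → IsLv f m R2 M →
    ∀ χ : Ideal (OO n t) → Om, IsChi (3 * f) χ → Ncj χ → ∀ P : Ideal ZZ, Ab3 P → (k = 1 ∨ k = 2) →
    Ty P f χ (k - 1) → ∀ σ : Ideal (OO n t) → Gal(Om/ℚ), IsSig n t f σ → ∀ s : ℤ, s = -(-1) ^ e →
    ∀ c : Gal(Om/ℚ), IsCj c →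
    (∀ a b c' d : ℤ, G0 M a b c' d → (M : ℤ) ∣ d - 1 →
      MP P (xs f k e m R χ (b / d) - xs f k e m R χ 0)) →
    ∃ (N0 : ℕ) (β : Om) (Q : Ideal ZZ), Ab3 Q ∧ β ∈ Kf n t f (3 * f) ∧
      (∀ j : ℕ, VP Q (cF f s m R2 σ c N0 β j / w4 ^ k)) ∧
      UP Q (cF f s m R2 σ c N0 β 1 / w4 ^ k) ∧ IsPer f M s m R2 σ N0 β

/-- **F3.** The function `Ψ`, `Ψ³ = y(C) - lam x(C) - nu`, and its expansion. -/
def S_Psi : Prop :=
  ∀ (n t : ℕ) [Ram3 n t] (f M : ℕ) (m : Ideal (OO n t)) (R : Finset (Ideal (OO n t))), FM f m →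
    FR f R → IsRC (3 * f) R → IsLv f m R M →
    ∀ σ : Ideal (OO n t) → Gal(Om/ℚ), IsSig n t f σ → ∀ c : Gal(Om/ℚ), IsCj c →
    ∀ s : ℤ, (s = 1 ∨ s = -1) →
    ∀ (N0 : ℕ) (β : Om), β ∈ Kf n t f (3 * f) → cF f s m R σ c N0 β 1 ≠ 0 →
    ∃ Ψ : ℂ → ℂ, (∀ z : ℂ, 0 < z.im → MeromorphicAt Ψ z) ∧
      (∀ z z' : ℂ, 0 < z.im → 0 < z'.im → ∀ α α' : OO n t, α - s * α' ∈ pp n t →
        AF f m R σ N0 β z' = AF f m R σ N0 β z + toC α →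
        AF f m R σ N0 β (-(starRingEnd ℂ) z') = AF f m R σ N0 β (-(starRingEnd ℂ) z) + toC α' →
        Ψ z' = Ψ z) ∧
      (∀ γ : SL(2, ℤ), ∃ (F : ℂ → ℂ) (Y : ℝ), MeromorphicAt F 0 ∧
        ∀ z : UpperHalfPlane, Y < z.im → Ψ ((γ • z : UpperHalfPlane) : ℂ) =
          F (Complex.exp (2 * Real.pi * Complex.I * (z : ℂ) / ((27 * M : ℕ) : ℂ)))) ∧
      ∃ (T W ψ : PowerSeries Om) (Y : ℝ) (j : ℕ) (L : IntermediateField ℚ Om),
        FiniteDimensional ℚ L ∧ (∀ i, PowerSeries.coeff i ψ ∈ L) ∧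
        _root_.DM.F4.TWr (a4O n t) (a6O n t) (uF f s m R σ c N0 β) T W ∧
        ψ ^ 3 * W = -(PowerSeries.X ^ 3 *
          (1 + PowerSeries.C (lamT n t) * T + PowerSeries.C (nuT n t) * W)) ∧
        ∀ z : ℂ, Y < z.im → HasSum (fun i : ℕ => io (PowerSeries.coeff i ψ) * ex z ^ i)
          (ex z ^ j * Ψ z)

/-- **F4.** The contradiction (from `DU.F4.fh`). -/
def S_FH : Prop :=
  ∀ (n t : ℕ) [Ram3 n t] (f k : ℕ) (m : Ideal (OO n t)) (R : Finset (Ideal (OO n t))), FM f m →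
    FR f R → IsRC (3 * f) R → ∀ Q : Ideal ZZ, Ab3 Q → (k = 1 ∨ k = 2) →
    ∀ σ : Ideal (OO n t) → Gal(Om/ℚ), IsSig n t f σ → ∀ c : Gal(Om/ℚ), IsCj c →
    ∀ (s : ℤ) (N0 : ℕ) (β : Om), β ∈ Kf n t f (3 * f) →
    (∀ j : ℕ, VP Q (cF f s m R σ c N0 β j / w4 ^ k)) →
    UP Q (cF f s m R σ c N0 β 1 / w4 ^ k) →
    ∀ (T W ψ Q1 Q2 : PowerSeries Om),
      _root_.DM.F4.TWr (a4O n t) (a6O n t) (uF f s m R σ c N0 β) T W →
      ψ ^ 3 * W = -(PowerSeries.X ^ 3 *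
        (1 + PowerSeries.C (lamT n t) * T + PowerSeries.C (nuT n t) * W)) →
      Q2 ≠ 0 → Q2 * ψ = Q1 → ∀ K' : IntermediateField ℚ Om, FiniteDimensional ℚ K' →
      (∀ i, PowerSeries.coeff i Q1 ∈ K') → (∀ i, PowerSeries.coeff i Q2 ∈ K') →
      (∀ i, VP Q (PowerSeries.coeff i Q1)) → (∀ i, VP Q (PowerSeries.coeff i Q2)) → False

end Pool.Agent.DM.DU
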